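import Pool.Agent.U481.GL.Stm
import Pool.Agent.U402.HW.STEPQ

/-!
# Project GL, package STEPT (helper438): one step of the sparse domination for an abstract sublinear operator
(after `Pool.Agent.U402.HW.STEPQ`)
-/

set_option autoImplicit false

open MeasureTheory Filter Topology Set
open scoped ENNReal NNReal

namespace Pool.Agent.U438.GL.STEPT

open Pool.Agent.U481.HW Pool.Agent.U481.GL Pool.Agent.U402.HW.STEPQ

theorem main : S_weak → S_stop → S_stepT := by
  intro hweak hstop T0 hT0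
  obtain ⟨C1, hC1, hw⟩ := hT0.weak
  obtain ⟨C2, hC2, hk⟩ := hT0.ker
  obtain ⟨D, hD⟩ : ∃ D : ℝ≥0∞, D = C1 + 1 := ⟨_, rfl⟩
  have hD0 : D ≠ 0 := by rw [hD]; simp
  have hDt : D ≠ ⊤ := by rw [hD]; exact ENNReal.add_ne_top.2 ⟨hC1.ne, ENNReal.one_ne_top⟩
  have hC1D : C1 ≤ D := by rw [hD]; exact le_self_add
  have h1D : 1 ≤ D := by rw [hD]; exact le_add_self
  obtain ⟨L, hL⟩ : ∃ L : ℝ≥0∞, L = 192 * D := ⟨_, rfl⟩
  have hL0 : L ≠ 0 := by rw [hL]; exact mul_ne_zero (by norm_num) hD0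
  have hLt : L ≠ ⊤ := by rw [hL]; exact ENNReal.mul_ne_top (by norm_num) hDt
  refine ⟨L + (L + 12 * D * L + C2 * L), ?_, fun f hf q => ?_⟩
  · refine ENNReal.add_lt_top.2 ⟨hLt.lt_top, ENNReal.add_lt_top.2 ⟨ENNReal.add_lt_top.2 ⟨hLt.lt_top, ?_⟩, ?_⟩⟩
    · exact (ENNReal.mul_ne_top (ENNReal.mul_ne_top (by norm_num) hDt) hLt).lt_top
    · exact (ENNReal.mul_ne_top hC2.ne hLt).lt_top
  obtain ⟨g, hgdef⟩ : ∃ g : ℝ → ℂ, g = lo f q := ⟨_, rfl⟩
  have hg : Integrable g := by rw [hgdef]; exact int_lo hf q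
  obtain ⟨A, hAdef⟩ : ∃ A : ℝ≥0∞, A = av f q := ⟨_, rfl⟩
  have hI : ∫⁻ y, ‖g y‖ₑ = A * (3 * volume (DD q)) := by rw [hgdef, hAdef]; exact lint_lo_av f q
  rw [← hgdef, ← hAdef]
  by_cases hA0 : A = 0
  · refine ⟨∅, by simp, by simp, by simp, ?_, by simp⟩
    have hn : ∀ n : ℕ, ∀ᵐ x, T0 g x ≤ ((n : ℝ≥0∞) + 1)⁻¹ := by
      intro n
      have h1 := hw g hg (((n : ℝ≥0∞) + 1)⁻¹)
      rw [hI, hA0, zero_mul, mul_zero] at h1
      have h2 : ((n : ℝ≥0∞) + 1)⁻¹ ≠ 0 := ENNReal.inv_ne_zero.2 (by simp)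
      have h3 : volume {x | ((n : ℝ≥0∞) + 1)⁻¹ < T0 g x} = 0 := by
        rcases mul_eq_zero.1 (le_antisymm h1 bot_le) with h | h
        · exact absurd h h2
        · exact h
      have h4 : ∀ᵐ x, ¬ (((n : ℝ≥0∞) + 1)⁻¹ < T0 g x) := by
        rw [ae_iff]
        simp only [not_not]
        exact h3
      filter_upwards [h4] with x hx
      exact not_lt.1 hx
    filter_upwards [ae_all_iff.2 hn] with x hx _ _
    have h5 : Tendsto (fun n : ℕ => ((n : ℝ≥0∞) + 1)⁻¹) atTop (𝓝 0) := by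
      have h6 := (tendsto_add_atTop_iff_nat (f := fun n : ℕ => ((n : ℝ≥0∞))⁻¹) 1).2
        ENNReal.tendsto_inv_nat_nhds_zero
      simpa using h6
    have h7 : T0 g x ≤ 0 := ge_of_tendsto' h5 hx
    exact h7.trans bot_le
  have hAt : A ≠ ⊤ := by
    intro h
    have h1 : ∫⁻ y, ‖g y‖ₑ < ⊤ := hg.2
    rw [hI, h, ENNReal.top_mul (mul_ne_zero (by norm_num) (DD_ne_zero q))] at h1
    exact lt_irrefl _ h1
  obtain ⟨M, hM⟩ : ∃ M : ℝ → ℝ≥0∞, M = MM volume (fun y => ‖g y‖ₑ) := ⟨_, rfl⟩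
  obtain ⟨S1, hS1⟩ : ∃ S1 : Set ℝ, S1 = {x | L * A < T0 g x} := ⟨_, rfl⟩
  obtain ⟨S2, hS2⟩ : ∃ S2 : Set ℝ, S2 = {x | L * A < M x} := ⟨_, rfl⟩
  have hm1 : 64 * volume S1 ≤ volume (DD q) := by
    have h := hw g hg (L * A)
    rw [← hS1] at h
    exact cancel hA0 hAt hD0 hDt hL hC1D hI h
  have hm2 : 32 * volume S2 ≤ volume (DD q) := by
    have hmk : MM volume (fun y => ‖g y‖ₑ) = MM volume (fun y => ‖hg.1.mk g y‖ₑ) := by
      refine MM_congr ?_
      filter_upwards [hg.1.ae_eq_mk] with y hy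
      rw [← hy]
    have hmk2 : ∫⁻ y, ‖hg.1.mk g y‖ₑ = ∫⁻ y, ‖g y‖ₑ := by
      refine lintegral_congr_ae ?_
      filter_upwards [hg.1.ae_eq_mk] with y hy
      rw [← hy]
    have h := hweak volume (fun a b => measure_Ioo_lt_top) (fun y => ‖hg.1.mk g y‖ₑ)
      hg.1.stronglyMeasurable_mk.enorm (L * A)
    rw [← hmk, ← hM, ← hS2, hmk2] at h
    have h2 : (L * A) * (volume S2 / 2) ≤ 1 * ∫⁻ y, ‖g y‖ₑ := by
      rw [one_mul, ← mul_div_assoc]
      refine ENNReal.div_le_of_le_mul ?_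
      rw [mul_comm (∫⁻ y, ‖g y‖ₑ)]
      exact h
    have h3 := cancel hA0 hAt hD0 hDt hL h1D hI h2
    have h4 : 64 * (volume S2 / 2) = 32 * volume S2 := by
      rw [ENNReal.div_eq_inv_mul, ← mul_assoc]
      congr 1
      rw [show (64 : ℝ≥0∞) = 32 * 2 by norm_num, mul_assoc, ENNReal.mul_inv_cancel (by norm_num) (by norm_num), mul_one]
    rw [h4] at h3
    exact h3
  obtain ⟨E, hE⟩ : ∃ E : Set ℝ, E = toMeasurable volume (S1 ∪ S2) ∩ DD q := ⟨_, rfl⟩
  have hEm : MeasurableSet E := by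
    rw [hE]; exact (measurableSet_toMeasurable _ _).inter measurableSet_Ico
  have hEs : 16 * volume E ≤ volume (DD q) := by
    have h1 : volume E ≤ volume S1 + volume S2 := by
      rw [hE]
      refine (measure_mono inter_subset_left).trans ?_
      rw [measure_toMeasurable]
      exact measure_union_le _ _
    have h5 : 2 * (16 * volume E) ≤ 2 * volume (DD q) := by
      calc 2 * (16 * volume E) = 32 * volume E := by ring
        _ ≤ 32 * (volume S1 + volume S2) := by gcongr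
        _ = 32 * volume S1 + 32 * volume S2 := by ring
        _ ≤ 64 * volume S1 + 32 * volume S2 := by gcongr; norm_num
        _ ≤ volume (DD q) + volume (DD q) := by gcongr
        _ = 2 * volume (DD q) := by ring
    exact (ENNReal.mul_le_mul_iff_right (by norm_num) (by norm_num)).1 h5
  have hout : ∀ x ∈ DD q, x ∉ E → T0 g x ≤ L * A ∧ M x ≤ L * A := by
    intro x hx hxE
    have h1 : x ∉ S1 ∪ S2 := fun h => hxE (by rw [hE]; exact ⟨subset_toMeasurable _ _ h, hx⟩)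
    constructor
    · by_contra h
      exact h1 (Or.inl (by rw [hS1]; exact not_le.1 h))
    · by_contra h
      exact h1 (Or.inr (by rw [hS2]; exact not_le.1 h))
  obtain ⟨F, hF1, hF2, hF3, hF4, hF5⟩ := hstop q E hEm (by rw [hE]; exact inter_subset_right) hEs
  refine ⟨F, fun r hr => (hF1 r hr).1, hF2, hF3, ?_, ?_⟩
  · filter_upwards [hF5] with x hx hxq hxF
    have hxE : x ∉ E := fun h => by
      obtain ⟨r, hr, hxr⟩ := hx h
      exact hxF r hr hxr
    refine (hout x hxq hxE).1.trans ?_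
    gcongr
    exact le_self_add
  · intro r hr
    refine ae_of_all _ fun x hx => ?_
    obtain ⟨hrq, hr3⟩ := hF1 r hr
    -- the local part
    have hgr : ∀ y ∈ D3 r, g y = f y := by
      intro y hy
      rw [hgdef]; exact indicator_of_mem (hr3 hy) f
    obtain ⟨h, hh⟩ : ∃ h : ℝ → ℂ, h = fun y => (D3 r)ᶜ.indicator g y := ⟨_, rfl⟩
    have hhint : Integrable h := by rw [hh]; exact hg.indicator measurableSet_Ico.compl
    have hsum : g = fun y => lo f r y + h y := by
      funext y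
      rw [hh]
      by_cases hy : y ∈ D3 r
      · have h1 : lo f r y = f y := indicator_of_mem hy f
        have h2 : (D3 r)ᶜ.indicator g y = 0 := indicator_of_notMem (by simpa using hy) g
        simp only [h1, h2, hgr y hy, add_zero]
      · have h1 : lo f r y = 0 := indicator_of_notMem hy f
        have h2 : (D3 r)ᶜ.indicator g y = g y := indicator_of_mem (by simpa using hy) g
        simp only [h1, h2, zero_add]
    have hdec : ∀ z, T0 g z ≤ T0 (lo f r) z + T0 h z := by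
      intro z
      conv_lhs => rw [hsum]
      exact hT0.sub (lo f r) h (int_lo hf r) hhint z
    have hngint : Integrable (fun y => -(lo f r y)) := (int_lo hf r).neg
    have hdec2 : ∀ z, T0 h z ≤ T0 g z + T0 (fun y => -(lo f r y)) z := by
      intro z
      have h1 : h = fun y => g y + -(lo f r y) := by
        funext y
        rw [hsum]
        ring
      conv_lhs => rw [h1]
      exact hT0.sub g (fun y => -(lo f r y)) hg hngint z
    -- the average over the small interval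
    obtain ⟨x1, hx1, hx1E, -⟩ := exists_pt (T := ∅) (hF4 r hr) (by simp)
    have hMx1 := (hout x1 (hrq hx1) hx1E).2
    have hIr : ∫⁻ y, ‖lo f r y‖ₑ ≤ (L * A) * (3 * volume (DD r)) := by
      have h1 := (le_MM (f := fun y => ‖g y‖ₑ) (mem_D3 hx1).1 (mem_D3 hx1).2)
      rw [← hM] at h1
      have h2 := h1.trans hMx1
      have h3 : volume (Ioo (((r.2 : ℝ) - 1) * 2 ^ r.1) (((r.2 : ℝ) + 2) * 2 ^ r.1)) = 3 * volume (DD r) := by
        rw [← vol_D3]
        exact measure_congr Ioo_ae_eq_Ico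
      rw [h3] at h2
      have h4 : ∫⁻ y in Ioo (((r.2 : ℝ) - 1) * 2 ^ r.1) (((r.2 : ℝ) + 2) * 2 ^ r.1), ‖g y‖ₑ = ∫⁻ y, ‖lo f r y‖ₑ := by
        rw [lint_lo, setLIntegral_congr Ioo_ae_eq_Ico]
        refine setLIntegral_congr_fun measurableSet_Ico fun y hy => ?_
        change ‖g y‖ₑ = ‖f y‖ₑ
        rw [hgr y hy]
      rw [h4] at h2
      exact (ENNReal.div_le_iff (mul_ne_zero (by norm_num) (DD_ne_zero r))
        (ENNReal.mul_ne_top (by norm_num) (DD_ne_top r))).1 h2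
    obtain ⟨T, hT⟩ : ∃ T : Set ℝ, T = {z | 12 * D * L * A < T0 (fun y => -(lo f r y)) z} := ⟨_, rfl⟩
    have hTm : 4 * volume T ≤ volume (DD r) := by
      have h1 := hw (fun y => -(lo f r y)) hngint (12 * D * L * A)
      simp only [enorm_neg] at h1
      rw [← hT] at h1
      exact cancel2 hA0 hAt hD0 hDt hL0 hLt hC1D hIr h1
    obtain ⟨x2, hx2, hx2E, hx2T⟩ := exists_pt (hF4 r hr) hTm
    obtain ⟨hQ2, hM2⟩ := hout x2 (hrq hx2) hx2E
    have hloc : T0 (fun y => -(lo f r y)) x2 ≤ 12 * D * L * A := by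
      by_contra h1
      exact hx2T (by rw [hT]; exact not_le.1 h1)
    have hh2 : T0 h x2 ≤ L * A + 12 * D * L * A :=
      (hdec2 x2).trans (add_le_add hQ2 hloc)
    have hker := hk h hhint r (fun y hy => by
      rw [hh]; exact indicator_of_notMem (by simpa using hy) g) x hx x2 hx2
    have hMh : MM volume (fun y => ‖h y‖ₑ) x2 ≤ L * A := by
      refine (MM_mono (fun y => ?_) x2).trans (le_of_eq_of_le (congrFun hM.symm x2) hM2)
      rw [hh]
      change ‖(D3 r)ᶜ.indicator g y‖ₑ ≤ ‖g y‖ₑ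
      rw [enorm_indicator_eq_indicator_enorm]
      exact indicator_le_self _ _ _
    have hhx : T0 h x ≤ (L + 12 * D * L + C2 * L) * A := by
      calc T0 h x ≤ T0 h x2 + C2 * MM volume (fun y => ‖h y‖ₑ) x2 := hker
        _ ≤ (L * A + 12 * D * L * A) + C2 * (L * A) := by
          refine add_le_add hh2 ?_
          gcongr
        _ = (L + 12 * D * L + C2 * L) * A := by ring
    refine (hdec x).trans ?_
    gcongr
    refine hhx.trans ?_
    exact mul_le_mul_left le_add_self A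

end Pool.Agent.U438.GL.STEPT
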